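import Pool.Agent.Q18.KZ.S3
import Pool.Agent.Q222.KZ.Base
import Pool.Agent.Q102.KZ.LB

set_option autoImplicit false

/-!
Project KZ (helper18): sizes of all perturbations.
-/

namespace Pool.Agent.Q238.KZ

open Finset Filter Topology
open scoped Classical
open Pool.Agent.Q18.KZ Pool.Agent.Q222.KZ
open Pool.Agent.Q102.KZ (ww_nn gu_nn gh_nn ghn_nn ghn_le H1_nn H2_nn)
open Pool.Agent.W76.MO (hh nc cell lp Rough hh_pos cell_loc nc_mul)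

theorem sc_spec {n : ℕ} (hn : 2 ≤ n) : 2 ^ (KEnv.sc n) < n ∧ n ≤ 2 ^ (KEnv.sc n + 1) := by
  unfold KEnv.sc
  have h1 : 2 ^ Nat.log 2 (n - 1) ≤ n - 1 := Nat.pow_log_le_self 2 (by omega)
  have h2 : n - 1 < 2 ^ (Nat.log 2 (n - 1) + 1) := Nat.lt_pow_succ_log_self (by norm_num) _
  omega

theorem sc_ge {n j : ℕ} (h : 2 ^ j < n) : j ≤ KEnv.sc n := by
  unfold KEnv.sc
  apply Nat.le_log_of_pow_le (by norm_num)
  omega

theorem kx_cell (E : KEnv) {n : ℕ} (hn : 2 ≤ n) :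
    E.kx n < nc E.δ (KEnv.sc n) ∧ n ∈ cell E.δ (KEnv.sc n) (E.kx n) := by
  obtain ⟨h1, h2⟩ := sc_spec hn
  have h3 := hh_pos E.δ (KEnv.sc n)
  have h4 := nc_mul E.δ E.hδ (KEnv.sc n)
  have h5 : E.kx n = (n - 1 - 2 ^ KEnv.sc n) / hh E.δ (KEnv.sc n) := rfl
  have h6 : E.kx n * hh E.δ (KEnv.sc n) ≤ n - 1 - 2 ^ KEnv.sc n := by
    rw [h5]; exact Nat.div_mul_le_self _ _
  have h7 : n - 1 - 2 ^ KEnv.sc n < (E.kx n + 1) * hh E.δ (KEnv.sc n) := by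
    rw [h5, mul_comm]
    exact Nat.lt_mul_div_succ _ h3
  have h8 : n - 1 - 2 ^ KEnv.sc n < 2 ^ KEnv.sc n := by rw [pow_succ] at h2; omega
  constructor
  · have h9 : E.kx n * hh E.δ (KEnv.sc n) < nc E.δ (KEnv.sc n) * hh E.δ (KEnv.sc n) := by
      rw [h4]; omega
    exact Nat.lt_of_mul_lt_mul_right h9
  · unfold cell
    rw [mem_Ioc]
    omega

/-- the value at a control prime -/
theorem gu_le (E : KEnv) {j p : ℕ} (hj : E.i₁ ≤ j) (hjc : 4 / E.cU ≤ j) (h0 : E.gu j p ≠ 0) :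
    2 ^ j < p ∧ E.gu j p ≤ (p : ℝ) ^ (-1 + E.δ / 2) * (KEnv.sc p : ℝ) ^ (-(38 : ℝ)) := by
  unfold KEnv.gu at h0 ⊢
  split_ifs at h0 ⊢ with h
  · obtain ⟨hp, hjp, hk⟩ := h
    refine ⟨hjp, ?_⟩
    have hp2 : 2 ≤ p := hp.two_le
    set s := KEnv.sc p with hs
    have hjs : j ≤ s := sc_ge hjp
    obtain ⟨h1, h2⟩ := sc_spec hp2
    obtain ⟨h3, h4⟩ := kx_cell E hp2
    have hs0 : (0 : ℝ) < s := by
      have := E.hi₁
      have : 0 < s := by omega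
      exact_mod_cast this
    have hcU := E.hcU
    have hg := E.good s (hj.trans hjs) (E.kx p) h3 hk
    have hhp : (0 : ℝ) < hh E.δ s := by exact_mod_cast hh_pos E.δ s
    have hden : 0 < E.cU * hh E.δ s / s := by positivity
    have hA : ww E.δ s / (((cell E.δ s (E.kx p)).filter Nat.Prime).card : ℝ) ≤ ww E.δ s / (E.cU * hh E.δ s / s) :=
      div_le_div_of_nonneg_left (ww_nn _ _) hden hg
    refine hA.trans ?_
    -- `hh` from below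
    have hge := hh_ge (δ := E.δ) s
    have hB : ww E.δ s / (E.cU * hh E.δ s / s) ≤ ww E.δ s / (E.cU * (2 : ℝ) ^ ((1 / 2 - E.δ) * (s : ℝ) - 1) / s) := by
      apply div_le_div_of_nonneg_left (ww_nn _ _)
      · have := r2pos ((1 / 2 - E.δ) * (s : ℝ) - 1)
        positivity
      · gcongr
    refine hB.trans ?_
    -- `p ≤ 2^(s+1)`
    have hpR : (0 : ℝ) < p := by exact_mod_cast hp.pos
    have hC : (2 : ℝ) ^ (-(1 - E.δ / 2) * (s : ℝ)) ≤ 2 * (p : ℝ) ^ (-1 + E.δ / 2) := by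
      have hp3 : (p : ℝ) ≤ (2 : ℝ) ^ ((s : ℝ) + 1) := by
        have : (p : ℝ) ≤ ((2 ^ (s + 1) : ℕ) : ℝ) := by exact_mod_cast h2
        rw [r2n] at this
        push_cast at this
        exact this
      have hδ1 : E.δ ≤ 1 / 2 := E_half E
      have hδ0 := E.hδ
      have h5 : ((2 : ℝ) ^ ((s : ℝ) + 1)) ^ (-1 + E.δ / 2) ≤ (p : ℝ) ^ (-1 + E.δ / 2) :=
        Real.rpow_le_rpow_of_nonpos hpR hp3 (by linarith)
      rw [← Real.rpow_mul two_pos.le] at h5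
      have h6 : (2 : ℝ) ^ (-(1 - E.δ / 2) * (s : ℝ)) = (2 : ℝ) ^ (((s : ℝ) + 1) * (-1 + E.δ / 2)) * (2 : ℝ) ^ (1 - E.δ / 2) := by
        rw [← r2]; congr 1; ring
      rw [h6, mul_comm]
      have h7 : (2 : ℝ) ^ (1 - E.δ / 2) ≤ 2 := by
        have := r2mono (x := 1 - E.δ / 2) (y := 1) (by linarith)
        rwa [Real.rpow_one] at this
      have h8 := r2pos (((s : ℝ) + 1) * (-1 + E.δ / 2))
      have h9 := r2pos (1 - E.δ / 2)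
      calc (2 : ℝ) ^ (1 - E.δ / 2) * (2 : ℝ) ^ (((s : ℝ) + 1) * (-1 + E.δ / 2)) ≤ 2 * (2 : ℝ) ^ (((s : ℝ) + 1) * (-1 + E.δ / 2)) := by gcongr
        _ ≤ 2 * (p : ℝ) ^ (-1 + E.δ / 2) := by gcongr
    have hD : ww E.δ s / (E.cU * (2 : ℝ) ^ ((1 / 2 - E.δ) * (s : ℝ) - 1) / s) =
        (2 / E.cU) * (2 : ℝ) ^ (-(1 - E.δ / 2) * (s : ℝ)) * (s / (s : ℝ) ^ 40) := by
      unfold ww
      have h6 : (2 : ℝ) ^ (-(1 / 2 + E.δ / 2) * (s : ℝ)) =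
          (2 : ℝ) ^ (-(1 - E.δ / 2) * (s : ℝ)) * ((2 : ℝ) ^ ((1 / 2 - E.δ) * (s : ℝ) - 1) * 2) := by
        have : (2 : ℝ) ^ ((1 / 2 - E.δ) * (s : ℝ) - 1) * 2 = (2 : ℝ) ^ ((1 / 2 - E.δ) * (s : ℝ)) := by
          rw [Real.rpow_sub_one two_ne_zero]; ring
        rw [this, ← r2]; congr 1; ring
      rw [h6]
      have h7 := (r2pos ((1 / 2 - E.δ) * (s : ℝ) - 1)).ne'
      field_simp
    rw [hD]
    have h38 : (s : ℝ) ^ (-(38 : ℝ)) = ((s : ℝ) ^ 38)⁻¹ := by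
      rw [Real.rpow_neg hs0.le, show (38 : ℝ) = ((38 : ℕ) : ℝ) by norm_num, Real.rpow_natCast]
    rw [h38]
    have hE : (s : ℝ) / (s : ℝ) ^ 40 = ((s : ℝ) ^ 38)⁻¹ / s := by
      field_simp
    rw [hE]
    have hF : 4 / E.cU ≤ (s : ℝ) := hjc.trans (by exact_mod_cast hjs)
    have hG : (2 / E.cU) * (2 : ℝ) ^ (-(1 - E.δ / 2) * (s : ℝ)) * (((s : ℝ) ^ 38)⁻¹ / s) ≤
        (2 / E.cU) * (2 * (p : ℝ) ^ (-1 + E.δ / 2)) * (((s : ℝ) ^ 38)⁻¹ / s) := by gcongr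
    refine hG.trans ?_
    have hH : (2 / E.cU) * (2 * (p : ℝ) ^ (-1 + E.δ / 2)) * (((s : ℝ) ^ 38)⁻¹ / s) =
        ((4 / E.cU) / s) * ((p : ℝ) ^ (-1 + E.δ / 2) * ((s : ℝ) ^ 38)⁻¹) := by
      field_simp; ring
    rw [hH]
    have hI : (4 / E.cU) / s ≤ 1 := by rw [div_le_one hs0]; exact hF
    have hJ : 0 ≤ (p : ℝ) ^ (-1 + E.δ / 2) * ((s : ℝ) ^ 38)⁻¹ := by positivity
    exact mul_le_of_le_one_left hJ hI
  · exact absurd rfl h0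

theorem TT_le (E : KEnv) {i m q : ℕ} (hi : 1 ≤ i) (hq : 1 ≤ q) (h : m * q ≤ 2 ^ (i + 1)) :
    E.TT i m ≤ 8 * (2 : ℝ) ^ ((E.δ / 2 + 1 / 10 ^ 16) * (i : ℝ)) * (q : ℝ)⁻¹ := by
  obtain ⟨θ, hθ0⟩ : ∃ θ : ℝ, θ = 1 / 10 ^ 16 := ⟨_, rfl⟩
  have hθ1 : 0 < θ := by rw [hθ0]; norm_num
  have hθ2 : θ ≤ 1 := by rw [hθ0]; norm_num
  rw [← hθ0]
  have hqR : (1 : ℝ) ≤ q := by exact_mod_cast hq
  have hiR : (1 : ℝ) ≤ i := by exact_mod_cast hi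
  have hq0 : (0 : ℝ) < q := by linarith
  have hm : (m : ℝ) ≤ (2 : ℝ) ^ ((i : ℝ) + 1) * (q : ℝ)⁻¹ := by
    have h1 : ((m * q : ℕ) : ℝ) ≤ ((2 ^ (i + 1) : ℕ) : ℝ) := by exact_mod_cast h
    rw [r2n] at h1
    push_cast at h1
    rw [← div_eq_mul_inv, le_div_iff₀ hq0]
    exact h1
  have hθ : (1 : ℝ) + dd - d1 = 1 + θ := by rw [hθ0]; unfold dd d1; ring
  have h1 : (m : ℝ) ^ (1 + dd - d1) ≤ (2 : ℝ) ^ (((i : ℝ) + 1) * (1 + θ)) * (q : ℝ)⁻¹ := by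
    rw [hθ]
    refine (Real.rpow_le_rpow (Nat.cast_nonneg m) hm (by linarith)).trans ?_
    rw [Real.mul_rpow (r2pos _).le (inv_nonneg.2 hq0.le), ← Real.rpow_mul two_pos.le]
    apply mul_le_mul_of_nonneg_left _ (r2pos _).le
    have h2 : (q : ℝ)⁻¹ ≤ 1 := inv_le_one_of_one_le₀ hqR
    calc ((q : ℝ)⁻¹) ^ ((1 : ℝ) + θ) ≤ ((q : ℝ)⁻¹) ^ (1 : ℝ) :=
          Real.rpow_le_rpow_of_exponent_ge (inv_pos.2 hq0) h2 (by linarith)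
      _ = (q : ℝ)⁻¹ := Real.rpow_one _
  have hge := hh_ge (δ := E.δ) i
  unfold KEnv.TT
  have hP := r2pos ((1 / 2 - E.δ) * (i : ℝ) - 1)
  have hhp : (0 : ℝ) < hh E.δ i := by exact_mod_cast hh_pos E.δ i
  have h3 : ww E.δ i * (m : ℝ) ^ (1 + dd - d1) * i / hh E.δ i ≤
      ww E.δ i * ((2 : ℝ) ^ (((i : ℝ) + 1) * (1 + θ)) * (q : ℝ)⁻¹) * i / (2 : ℝ) ^ ((1 / 2 - E.δ) * (i : ℝ) - 1) := by
    have := ww_nn E.δ i
    gcongr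
  refine h3.trans ?_
  have h4 : ww E.δ i * ((2 : ℝ) ^ (((i : ℝ) + 1) * (1 + θ)) * (q : ℝ)⁻¹) * i / (2 : ℝ) ^ ((1 / 2 - E.δ) * (i : ℝ) - 1) =
      ((2 : ℝ) ^ (2 + θ : ℝ) * (2 : ℝ) ^ ((E.δ / 2 + θ) * (i : ℝ)) * (q : ℝ)⁻¹) * ((i : ℝ) ^ 39)⁻¹ := by
    unfold ww
    have h5 : (2 : ℝ) ^ (-(1 / 2 + E.δ / 2) * (i : ℝ)) * (2 : ℝ) ^ (((i : ℝ) + 1) * (1 + θ)) =
        ((2 : ℝ) ^ (2 + θ : ℝ) * (2 : ℝ) ^ ((E.δ / 2 + θ) * (i : ℝ))) * (2 : ℝ) ^ ((1 / 2 - E.δ) * (i : ℝ) - 1) := by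
      rw [← r2, ← r2, ← r2]; congr 1; ring
    have h6 : (2 : ℝ) ^ (-(1 / 2 + E.δ / 2) * (i : ℝ)) / (i : ℝ) ^ 40 * ((2 : ℝ) ^ (((i : ℝ) + 1) * (1 + θ)) * (q : ℝ)⁻¹) * i =
        ((2 : ℝ) ^ (-(1 / 2 + E.δ / 2) * (i : ℝ)) * (2 : ℝ) ^ (((i : ℝ) + 1) * (1 + θ))) * ((q : ℝ)⁻¹ * ((i : ℝ) ^ 39)⁻¹) := by
      field_simp
    rw [h6, h5]
    field_simp
  rw [h4]
  have h7 : ((i : ℝ) ^ 39)⁻¹ ≤ 1 := inv_le_one_of_one_le₀ (one_le_pow₀ hiR)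
  have h8 : (2 : ℝ) ^ (2 + θ : ℝ) ≤ 8 := by
    have := r2mono (x := 2 + θ) (y := 3) (by linarith)
    refine this.trans (le_of_eq ?_)
    rw [show (3 : ℝ) = ((3 : ℕ) : ℝ) by norm_num, Real.rpow_natCast]; norm_num
  have h9 := r2pos ((E.δ / 2 + θ) * (i : ℝ))
  calc _ ≤ ((2 : ℝ) ^ (2 + θ : ℝ) * (2 : ℝ) ^ ((E.δ / 2 + θ) * (i : ℝ)) * (q : ℝ)⁻¹) * 1 := by
        gcongr
    _ = (2 : ℝ) ^ (2 + θ : ℝ) * (2 : ℝ) ^ ((E.δ / 2 + θ) * (i : ℝ)) * (q : ℝ)⁻¹ := mul_one _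
    _ ≤ _ := by gcongr

/-- the hosts of one scale -/
theorem H_le (E : KEnv) (V : ℕ → Bool) {i q : ℕ} {C : ℝ} (hC : 1 ≤ C) (hi : E.i₁ ≤ i) (hq : q.Prime) (hFF : S_FF)
    (h1 : E.H1 V i q ≤ ∑ u ∈ (E.Fam1 i).filter (fun u => u.2 = q), E.g1 V i u)
    (h2 : E.H2 V i q ≤ ∑ u ∈ (E.Fam2 i).filter (fun u => u.2 = q), E.g2 V i u)
    (h3 : ∀ u : ℕ × ℕ, 0 ≤ E.g1 V i u ∧ E.g1 V i u ≤ (if Vn V u.1 then C * E.TT i u.1 else 0) ∧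
      0 ≤ E.g2 V i u ∧ E.g2 V i u ≤ (if Vn V u.1 then C * E.TT i u.1 else 0))
    (hz : (((E.Fam i).filter (fun u => u.2 = q ∧ Vn V u.1)).card : ℝ) ≤ (2 : ℝ) ^ (e0 * i)) :
    E.H1 V i q + E.H2 V i q ≤ 16 * C * (q : ℝ) ^ (-1 + 5 / 10 ^ 16 : ℝ) ∧
      ((q : ℝ) < (2 : ℝ) ^ ((i : ℝ) / 4) → E.H1 V i q = 0 ∧ E.H2 V i q = 0) := by
  have hi1 : 1 ≤ i := by have := E.hi₁; omega
  have hq1 : 1 ≤ q := hq.one_lt.le
  have hq0 : (0 : ℝ) < q := by exact_mod_cast hq.pos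
  have hqR : (1 : ℝ) ≤ q := by exact_mod_cast hq1
  obtain ⟨F1, F2⟩ := hFF E i hi
  have hbig : ∀ u ∈ E.Fam i, u.2 = q → (2 : ℝ) ^ (0.25 * (i : ℝ)) ≤ q ∧ u.1 * q ≤ 2 ^ (i + 1) := by
    intro u hu huq
    have hiR : (0 : ℝ) ≤ i := Nat.cast_nonneg i
    rcases mem_union.1 hu with h | h
    · obtain ⟨_, _, _, _, h5, _, h7, _⟩ := F1 u h
      rw [huq] at h5 h7
      exact ⟨(r2mono (by linarith)).trans h5, h7⟩
    · obtain ⟨_, _, _, _, _, _, _, h5, _, h7, _⟩ := F2 u h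
      rw [huq] at h5 h7
      exact ⟨h5, h7⟩
  set X : ℝ := 8 * (2 : ℝ) ^ ((E.δ / 2 + 1 / 10 ^ 16) * (i : ℝ)) * (q : ℝ)⁻¹ with hX
  have hX0 : 0 ≤ X := by have := r2pos ((E.δ / 2 + 1 / 10 ^ 16) * (i : ℝ)); positivity
  set N : Finset (ℕ × ℕ) := (E.Fam i).filter (fun u => u.2 = q ∧ Vn V u.1) with hN
  have gen : ∀ (F : Finset (ℕ × ℕ)) (g : ℕ × ℕ → ℝ), F ⊆ E.Fam i →
      (∀ u, g u ≤ (if Vn V u.1 then C * E.TT i u.1 else 0)) →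
      ∑ u ∈ F.filter (fun u => u.2 = q), g u ≤ (N.card : ℝ) * (C * X) := by
    intro F g hF hg
    calc ∑ u ∈ F.filter (fun u => u.2 = q), g u
        ≤ ∑ u ∈ F.filter (fun u => u.2 = q), (if Vn V u.1 then C * X else 0) := by
          apply sum_le_sum
          intro u hu
          rw [mem_filter] at hu
          refine (hg u).trans ?_
          split_ifs
          · apply mul_le_mul_of_nonneg_left _ (by linarith)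
            exact TT_le E hi1 hq1 (hbig u (hF hu.1) hu.2).2
          · exact le_rfl
      _ = ∑ u ∈ (F.filter (fun u => u.2 = q)).filter (fun u => Vn V u.1), C * X := (sum_filter _ _).symm
      _ ≤ ∑ u ∈ N, C * X := by
          apply sum_le_sum_of_subset_of_nonneg
          · intro u hu
            rw [mem_filter, mem_filter] at hu
            rw [hN, mem_filter]
            exact ⟨hF hu.1.1, hu.1.2, hu.2⟩
          · intro u _ _; exact mul_nonneg (by linarith) hX0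
      _ = (N.card : ℝ) * (C * X) := by rw [sum_const, nsmul_eq_mul]
  have hA := h1.trans (gen _ _ subset_union_left (fun u => (h3 u).2.1))
  have hB := h2.trans (gen _ _ subset_union_right (fun u => (h3 u).2.2.2))
  have hH1 := H1_nn E V i q
  have hH2 := H2_nn E V i q
  by_cases hne : N = ∅
  · rw [hne, card_empty, Nat.cast_zero, zero_mul] at hA hB
    have e1 := le_antisymm hA hH1
    have e2 := le_antisymm hB hH2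
    refine ⟨?_, fun _ => ⟨e1, e2⟩⟩
    rw [e1, e2, add_zero]
    have := Real.rpow_pos_of_pos hq0 (-1 + 5 / 10 ^ 16 : ℝ)
    positivity
  · obtain ⟨u, hu⟩ := nonempty_iff_ne_empty.2 hne
    rw [hN, mem_filter] at hu
    obtain ⟨hb, _⟩ := hbig u hu.1 hu.2.1
    have hb' : (2 : ℝ) ^ ((i : ℝ) / 4) ≤ q := by
      refine le_trans (le_of_eq ?_) hb
      congr 1; ring
    refine ⟨?_, fun h => absurd h (not_lt.2 hb')⟩
    have h4 : (N.card : ℝ) * (C * X) ≤ (2 : ℝ) ^ (e0 * i) * (C * X) :=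
      mul_le_mul_of_nonneg_right hz (mul_nonneg (by linarith) hX0)
    have h5 : (2 : ℝ) ^ (e0 * (i : ℝ)) * (2 : ℝ) ^ ((E.δ / 2 + 1 / 10 ^ 16) * (i : ℝ)) ≤ (q : ℝ) ^ (5 / 10 ^ 16 : ℝ) := by
      rw [← r2]
      calc (2 : ℝ) ^ (e0 * (i : ℝ) + (E.δ / 2 + 1 / 10 ^ 16) * (i : ℝ)) ≤ (2 : ℝ) ^ ((i : ℝ) / 4 * (5 / 10 ^ 16)) := by
            apply r2mono
            have h6 : e0 + (E.δ / 2 + 1 / 10 ^ 16) ≤ 1 / 4 * (5 / 10 ^ 16) := by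
              have := E.hδ'
              unfold e0
              linarith
            have h7 : (0 : ℝ) ≤ i := Nat.cast_nonneg i
            calc e0 * (i : ℝ) + (E.δ / 2 + 1 / 10 ^ 16) * (i : ℝ) = (e0 + (E.δ / 2 + 1 / 10 ^ 16)) * i := by ring
              _ ≤ (1 / 4 * (5 / 10 ^ 16) : ℝ) * (i : ℝ) := mul_le_mul_of_nonneg_right h6 h7
              _ = (i : ℝ) / 4 * (5 / 10 ^ 16) := by ring
        _ = ((2 : ℝ) ^ ((i : ℝ) / 4)) ^ (5 / 10 ^ 16 : ℝ) := by rw [← Real.rpow_mul two_pos.le]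
        _ ≤ (q : ℝ) ^ (5 / 10 ^ 16 : ℝ) := Real.rpow_le_rpow (r2pos _).le hb' (by norm_num)
    have h6 : (2 : ℝ) ^ (e0 * (i : ℝ)) * (C * X) ≤ 8 * C * (q : ℝ) ^ (-1 + 5 / 10 ^ 16 : ℝ) := by
      have h7 : (q : ℝ) ^ (-1 + 5 / 10 ^ 16 : ℝ) = (q : ℝ)⁻¹ * (q : ℝ) ^ (5 / 10 ^ 16 : ℝ) := by
        rw [Real.rpow_add hq0, Real.rpow_neg_one]
      rw [h7, hX]
      calc (2 : ℝ) ^ (e0 * (i : ℝ)) * (C * (8 * (2 : ℝ) ^ ((E.δ / 2 + 1 / 10 ^ 16) * (i : ℝ)) * (q : ℝ)⁻¹)) =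
            8 * C * ((q : ℝ)⁻¹ * ((2 : ℝ) ^ (e0 * (i : ℝ)) * (2 : ℝ) ^ ((E.δ / 2 + 1 / 10 ^ 16) * (i : ℝ)))) := by ring
        _ ≤ 8 * C * ((q : ℝ)⁻¹ * (q : ℝ) ^ (5 / 10 ^ 16 : ℝ)) := by gcongr
    linarith

/-- logarithms are small -/
theorem log_small (C : ℝ) (hC : 1 ≤ C) : ∃ X₀ : ℝ, ∀ q : ℕ, X₀ ≤ q → 1 ≤ q →
    (4 * (Nat.log 2 q : ℝ) + 4) * (16 * C) ≤ (q : ℝ) ^ (5 / 10 ^ 16 : ℝ) / 2 := by
  have hr : (0 : ℝ) < 5 / 10 ^ 16 := by norm_num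
  have h1 := (isLittleO_log_rpow_atTop hr).bound (show (0 : ℝ) < 1 / (512 * C) by positivity)
  have h2 := (tendsto_rpow_atTop hr).eventually (eventually_ge_atTop (256 * C))
  obtain ⟨X₀, hX₀⟩ := (h1.and h2).exists_forall_of_atTop
  refine ⟨X₀, fun q hq hq1 => ?_⟩
  obtain ⟨h3, h4⟩ := hX₀ q hq
  have hqR : (1 : ℝ) ≤ q := by exact_mod_cast hq1
  have hq0 : (0 : ℝ) < q := by linarith
  have h5 : 0 ≤ Real.log q := Real.log_nonneg hqR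
  rw [Real.norm_of_nonneg h5, Real.norm_of_nonneg (Real.rpow_nonneg hq0.le _)] at h3
  have h6 : (Nat.log 2 q : ℝ) ≤ 2 * Real.log q := by
    have h7 : (2 : ℝ) ^ (Nat.log 2 q) ≤ q := by exact_mod_cast Nat.pow_log_le_self 2 (by omega)
    have h8 := Real.log_le_log (by positivity) h7
    rw [Real.log_pow] at h8
    have h9 := Real.log_two_gt_d9
    have h10 : (0 : ℝ) ≤ (Nat.log 2 q : ℝ) := Nat.cast_nonneg _
    nlinarith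
  have h7 : 1 / (512 * C) * (q : ℝ) ^ (5 / 10 ^ 16 : ℝ) * (512 * C) = (q : ℝ) ^ (5 / 10 ^ 16 : ℝ) := by
    field_simp
  have h8 : Real.log q * (512 * C) ≤ (q : ℝ) ^ (5 / 10 ^ 16 : ℝ) := by
    calc Real.log q * (512 * C) ≤ (1 / (512 * C) * (q : ℝ) ^ (5 / 10 ^ 16 : ℝ)) * (512 * C) := by gcongr
      _ = _ := h7
  have h9 : (Nat.log 2 q : ℝ) * C ≤ 2 * Real.log q * C := mul_le_mul_of_nonneg_right h6 (by linarith)
  nlinarith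

theorem t_DG (hDT : S_DT) (hFF : S_FF) : S_DG := by
  intro E
  obtain ⟨C, hC, hDT⟩ := hDT E
  obtain ⟨X₀, hX₀⟩ := log_small C hC
  obtain ⟨J₁, hJ₁⟩ := exists_nat_ge (4 / E.cU)
  obtain ⟨J₂, hJ₂⟩ : ∃ J₂ : ℕ, ∀ j : ℕ, J₂ ≤ j → X₀ ≤ (2 : ℝ) ^ ((j : ℝ) / 4) := by
    have h1 : Tendsto (fun j : ℕ => (2 : ℝ) ^ ((j : ℝ) / 4)) atTop atTop :=
      (tendsto_rpow_atTop_of_base_gt_one 2 one_lt_two).comp
        ((tendsto_natCast_atTop_atTop).atTop_div_const (by norm_num : (0 : ℝ) < 4))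
    exact (h1.eventually (eventually_ge_atTop X₀)).exists_forall_of_atTop
  refine ⟨1, max E.i₁ (max J₁ J₂), one_pos, fun η j V _ _ hj hE p hp => ?_⟩
  have hj1 : E.i₁ ≤ j := (le_max_left _ _).trans hj
  have hj2 : J₁ ≤ j := ((le_max_left _ _).trans (le_max_right _ _)).trans hj
  have hj3 : J₂ ≤ j := ((le_max_right _ _).trans (le_max_right _ _)).trans hj
  have hjc : 4 / E.cU ≤ j := hJ₁.trans (by exact_mod_cast hj2)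
  have hp0 : (0 : ℝ) < p := by exact_mod_cast hp.pos
  have hpR : (1 : ℝ) ≤ p := by exact_mod_cast hp.one_lt.le
  have hD := hDT j hj1 V (fun p h => (hE.sub p h).1) hE.o1 hE.o2
  have hH : ∀ i : ℕ, j ≤ i → E.H1 V i p + E.H2 V i p ≤ 16 * C * (p : ℝ) ^ (-1 + 5 / 10 ^ 16 : ℝ) ∧
      ((p : ℝ) < (2 : ℝ) ^ ((i : ℝ) / 4) → E.H1 V i p = 0 ∧ E.H2 V i p = 0) := by
    intro i hi
    obtain ⟨d1, d2, d3, _, _⟩ := hD i hi
    exact H_le E V hC (hj1.trans hi) hp hFF (d1 p).2 (d2 p).2 d3 (hE.z i p hi)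
  have hzero : (p : ℝ) < (2 : ℝ) ^ ((j : ℝ) / 4) → E.gh V j p = 0 := by
    intro hlt
    unfold KEnv.gh
    apply sum_eq_zero
    intro i hi
    have hji : j ≤ i := (mem_filter.1 hi).2
    have h1 : (p : ℝ) < (2 : ℝ) ^ ((i : ℝ) / 4) := by
      refine hlt.trans_le (r2mono ?_)
      have : (j : ℝ) ≤ i := by exact_mod_cast hji
      linarith
    obtain ⟨h2, h3⟩ := (hH i hji).2 h1
    rw [h2, h3, add_zero]
  have hsmall : E.gh V j p ≤ (p : ℝ) ^ (-1 + 1 / 10 ^ 15 : ℝ) / 2 := by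
    by_cases hlt : (p : ℝ) < (2 : ℝ) ^ ((j : ℝ) / 4)
    · rw [hzero hlt]
      have := Real.rpow_pos_of_pos hp0 (-1 + 1 / 10 ^ 15 : ℝ)
      positivity
    · rw [not_lt] at hlt
      have h1 := hX₀ p ((hJ₂ j hj3).trans hlt) hp.one_lt.le
      have h2 : E.gh V j p ≤ ((KEnv.hs j p).card : ℝ) * (16 * C * (p : ℝ) ^ (-1 + 5 / 10 ^ 16 : ℝ)) := by
        unfold KEnv.gh
        rw [← nsmul_eq_mul]
        apply sum_le_card_nsmul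
        intro i hi
        exact (hH i (mem_filter.1 hi).2).1
      have h3 : ((KEnv.hs j p).card : ℝ) ≤ 4 * (Nat.log 2 p : ℝ) + 4 := by
        have : (KEnv.hs j p).card ≤ 4 * Nat.log 2 p + 4 := by
          unfold KEnv.hs
          exact (card_filter_le _ _).trans (by rw [card_range])
        exact_mod_cast this
      have h4 := Real.rpow_pos_of_pos hp0 (-1 + 5 / 10 ^ 16 : ℝ)
      have h5 : (p : ℝ) ^ (-1 + 1 / 10 ^ 15 : ℝ) = (p : ℝ) ^ (5 / 10 ^ 16 : ℝ) * (p : ℝ) ^ (-1 + 5 / 10 ^ 16 : ℝ) := by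
        rw [← Real.rpow_add hp0]; congr 1; norm_num
      rw [h5]
      calc E.gh V j p ≤ ((KEnv.hs j p).card : ℝ) * (16 * C * (p : ℝ) ^ (-1 + 5 / 10 ^ 16 : ℝ)) := h2
        _ ≤ (4 * (Nat.log 2 p : ℝ) + 4) * (16 * C * (p : ℝ) ^ (-1 + 5 / 10 ^ 16 : ℝ)) := by gcongr
        _ = ((4 * (Nat.log 2 p : ℝ) + 4) * (16 * C)) * (p : ℝ) ^ (-1 + 5 / 10 ^ 16 : ℝ) := by ring
        _ ≤ ((p : ℝ) ^ (5 / 10 ^ 16 : ℝ) / 2) * (p : ℝ) ^ (-1 + 5 / 10 ^ 16 : ℝ) := by gcongr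
        _ = _ := by ring
  have hgus : E.gu j p ≤ (p : ℝ) ^ (-1 + 1 / 10 ^ 15 : ℝ) / 2 := by
    by_cases h0 : E.gu j p = 0
    · rw [h0]
      have := Real.rpow_pos_of_pos hp0 (-1 + 1 / 10 ^ 15 : ℝ)
      positivity
    · obtain ⟨h1, h2⟩ := gu_le E hj1 hjc h0
      refine h2.trans ?_
      have h3 : j ≤ KEnv.sc p := sc_ge h1
      have h4 : 2 ≤ KEnv.sc p := by have := E.hi₁; omega
      have h5 : (2 : ℝ) ≤ (KEnv.sc p : ℝ) := by exact_mod_cast h4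
      have h6 : (KEnv.sc p : ℝ) ^ (-(38 : ℝ)) ≤ 1 / 2 := by
        calc (KEnv.sc p : ℝ) ^ (-(38 : ℝ)) ≤ (KEnv.sc p : ℝ) ^ (-(1 : ℝ)) :=
              Real.rpow_le_rpow_of_exponent_le (by linarith) (by norm_num)
          _ = (KEnv.sc p : ℝ)⁻¹ := Real.rpow_neg_one _
          _ ≤ (2 : ℝ)⁻¹ := by gcongr
          _ = 1 / 2 := by norm_num
      have h7 : (p : ℝ) ^ (-1 + E.δ / 2) ≤ (p : ℝ) ^ (-1 + 1 / 10 ^ 15 : ℝ) := by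
        apply Real.rpow_le_rpow_of_exponent_le hpR
        have := E.hδ'
        have h8 : (1 : ℝ) / 10 ^ 24 ≤ 1 / 10 ^ 15 := by norm_num
        linarith
      have h8 : 0 < (KEnv.sc p : ℝ) ^ (-(38 : ℝ)) := Real.rpow_pos_of_pos (by linarith) _
      calc (p : ℝ) ^ (-1 + E.δ / 2) * (KEnv.sc p : ℝ) ^ (-(38 : ℝ)) ≤ (p : ℝ) ^ (-1 + 1 / 10 ^ 15 : ℝ) * (1 / 2) := by
            gcongr
        _ = _ := by ring
  refine ⟨gu_nn E j p, ghn_nn E V j 0 p, fun I => ⟨ghn_nn E V j I p, ghn_le E V j I p⟩, by linarith,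
    fun h0 => gu_le E hj1 hjc h0, hzero⟩

end Pool.Agent.Q238.KZ
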