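import Pool.Agent.Q18.KZ.S3
import Pool.Agent.Q222.KZ.Base
import Pool.Agent.Q102.KZ.LB

set_option autoImplicit false

/-!
Project KZ (helper18): host primes with small cofactors.
-/

namespace Pool.Agent.Q238.KZ

open Finset Filter Topology
open scoped Classical
open Pool.Agent.Q18.KZ Pool.Agent.Q222.KZ
open Pool.Agent.Q102.KZ (ww_nn gu_nn gh_nn ghn_nn ghn_le H1_nn H2_nn aV_nn)
open Pool.Agent.W76.MO (hh nc cell lp Rough hh_pos cell_loc nc_mul)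
open Q236.CM (LP)

theorem AA_nn (E : KEnv) (V : ℕ → Bool) (j n : ℕ) : 0 ≤ E.AA V j n := by
  unfold KEnv.AA
  exact Q236.CM.LP_nonneg _ (fun p => add_nonneg (aV_nn V p)
    (mul_nonneg two_pos.le (add_nonneg (gu_nn E j p) (gh_nn E V j p)))) n

theorem AA_mul (E : KEnv) (V : ℕ → Bool) (j : ℕ) {m n : ℕ} (hm : m ≠ 0) (hn : n ≠ 0) :
    E.AA V j (m * n) = E.AA V j m * E.AA V j n := Q236.CM.LP_mul _ hm hn

/-- the load of a cell, divided by `c`, of a regular family -/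
theorem reg_cell (E : KEnv) (V : ℕ → Bool) {i k i' c : ℕ} (F : Finset (ℕ × ℕ)) {x y R : ℝ} (hk : k < nc E.δ i)
    (hc : 1 ≤ c) (hcx : (c : ℝ) < (2 : ℝ) ^ (x * (i' : ℝ))) (hR : 0 ≤ R) (hi' : 1 ≤ i') (hy0 : 0 ≤ y) (hy : y ≤ 1)
    (hnum : y * (i' : ℝ) + 2 ≤ (1 / 2 - E.δ) * ((i' : ℝ) - 1) - 1 - x * (i' : ℝ) * (1 / 2 + E.δ))
    (h1 : ∀ u ∈ F, 2 ^ i' < u.1 * u.2 ∧ u.1 * u.2 ≤ 2 ^ (i' + 1))
    (h4 : ∀ a b : ℕ, 2 ^ i' ≤ a → b ≤ 2 ^ (i' + 1) → (2 : ℝ) ^ (y * (i' : ℝ)) ≤ (b : ℝ) - a →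
      ∑ u ∈ F.filter (fun u => Vn V u.1 ∧ u.1 * u.2 ∈ Ioc a b), (u.1 : ℝ) ^ (1 / 2 - d1) ≤ R * ((b : ℝ) - a) / i') :
    ∑ u ∈ F.filter (fun u => Vn V u.1 ∧ c * (u.1 * u.2) ∈ cell E.δ i k), (u.1 : ℝ) ^ (1 / 2 - d1) ≤
      (if c * 2 ^ i' ≤ 2 ^ (i + 1) ∧ 2 ^ i ≤ c * 2 ^ (i' + 1) then R * (2 * ((hh E.δ i : ℝ) / c)) / i' else 0) := by
  have hcR : (0 : ℝ) < c := by exact_mod_cast hc
  have hiR : (0 : ℝ) < i' := by exact_mod_cast hi'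
  rcases (F.filter (fun u => Vn V u.1 ∧ c * (u.1 * u.2) ∈ cell E.δ i k)).eq_empty_or_nonempty with h0 | ⟨u0, hu0⟩
  · rw [h0, sum_empty]
    split_ifs
    · positivity
    · exact le_rfl
  obtain ⟨hu0F, _, hu0c⟩ := mem_filter.1 hu0
  obtain ⟨p1, p2⟩ := h1 u0 hu0F
  have hloc := cell_loc E.δ E.hδ i k _ hk hu0c
  have hA : c * 2 ^ i' ≤ 2 ^ (i + 1) := (Nat.mul_le_mul_left c p1.le).trans hloc.2.1
  have hB : 2 ^ i ≤ c * 2 ^ (i' + 1) := by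
    have h5 := hloc.1
    have h6 : c * (u0.1 * u0.2) ≤ c * 2 ^ (i' + 1) := Nat.mul_le_mul_left c p2
    omega
  rw [if_pos ⟨hA, hB⟩]
  set a : ℕ := 2 ^ i + k * hh E.δ i with ha
  set h : ℕ := hh E.δ i with hh0
  have hcell : ∀ t : ℕ, c * t ∈ cell E.δ i k → a / c < t ∧ t ≤ (a + h) / c := by
    intro t ht
    obtain ⟨t1, t2⟩ := mem_cell.1 ht
    constructor
    · rw [Nat.div_lt_iff_lt_mul hc, mul_comm]; exact t1
    · rw [Nat.le_div_iff_mul_le hc, mul_comm]; exact t2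
  obtain ⟨l, hl⟩ : ∃ l : ℕ, l = ⌈(2 : ℝ) ^ (y * (i' : ℝ))⌉₊ := ⟨_, rfl⟩
  have hl1 : (2 : ℝ) ^ (y * (i' : ℝ)) ≤ l := by rw [hl]; exact Nat.le_ceil _
  have hl2 : (l : ℝ) ≤ (2 : ℝ) ^ (y * (i' : ℝ)) + 1 := by
    rw [hl]; exact (Nat.ceil_lt_add_one (r2pos _).le).le
  have hl3 : l ≤ 2 ^ i' := by
    rw [hl, Nat.ceil_le, r2n]
    apply r2mono
    nlinarith
  obtain ⟨A, hAd⟩ : ∃ A : ℕ, A = max (a / c) (2 ^ i') := ⟨_, rfl⟩
  obtain ⟨B, hBd⟩ : ∃ B : ℕ, B = min ((a + h) / c) (2 ^ (i' + 1)) := ⟨_, rfl⟩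
  have hx0 := hcell _ hu0c
  have hpw : 2 ^ (i' + 1) = 2 * 2 ^ i' := by rw [pow_succ]; ring
  have hAB : A < B := by omega
  obtain ⟨B', hB'⟩ : ∃ B' : ℕ, B' = min (2 ^ (i' + 1)) (B + l) := ⟨_, rfl⟩
  obtain ⟨A', hA'⟩ : ∃ A' : ℕ, A' = max (2 ^ i') (B' - (B - A + l)) := ⟨_, rfl⟩
  have q1 : 2 ^ i' ≤ A' := by omega
  have q2 : B' ≤ 2 ^ (i' + 1) := by omega
  have q3 : A' + l ≤ B' := by omega
  have q4 : B' ≤ A' + (B - A + l) := by omega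
  have q5 : A' ≤ A := by omega
  have q6 : B ≤ B' := by omega
  have hlen : (2 : ℝ) ^ (y * (i' : ℝ)) ≤ (B' : ℝ) - A' := by
    have : (A' : ℝ) + l ≤ B' := by exact_mod_cast q3
    linarith
  have hreg := h4 A' B' q1 q2 hlen
  have hsub : ∑ u ∈ F.filter (fun u => Vn V u.1 ∧ c * (u.1 * u.2) ∈ cell E.δ i k), (u.1 : ℝ) ^ (1 / 2 - d1) ≤
      ∑ u ∈ F.filter (fun u => Vn V u.1 ∧ u.1 * u.2 ∈ Ioc A' B'), (u.1 : ℝ) ^ (1 / 2 - d1) := by
    apply sum_le_sum_of_subset_of_nonneg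
    · intro u hu
      obtain ⟨huF, huV, huc⟩ := mem_filter.1 hu
      rw [mem_filter]
      refine ⟨huF, huV, ?_⟩
      obtain ⟨r1, r2⟩ := hcell _ huc
      obtain ⟨r3, r4⟩ := h1 u huF
      rw [mem_Ioc]
      omega
    · intro u _ _; positivity
  refine hsub.trans (hreg.trans ?_)
  have hlen2 : (B' : ℝ) - A' ≤ 2 * ((h : ℝ) / c) := by
    -- upper bound by `h/c + 2 + 2^(y i')`
    have s1 : (B' : ℝ) ≤ A' + ((B : ℝ) - A + l) := by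
      have : B' + A ≤ A' + (B + l) := by omega
      have : (B' : ℝ) + A ≤ A' + (B + l) := by exact_mod_cast this
      linarith
    have s2 : (B : ℝ) - A ≤ (((a + h) / c : ℕ) : ℝ) - ((a / c : ℕ) : ℝ) := by
      have e1 : B ≤ (a + h) / c := by omega
      have e2 : a / c ≤ A := by omega
      have e1' : (B : ℝ) ≤ (((a + h) / c : ℕ) : ℝ) := by exact_mod_cast e1
      have e2' : ((a / c : ℕ) : ℝ) ≤ A := by exact_mod_cast e2
      linarith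
    have s3 : (((a + h) / c : ℕ) : ℝ) ≤ ((a : ℝ) + h) / c := by
      have := @Nat.cast_div_le ℝ _ _ _ (a + h) c
      push_cast at this
      exact this
    have s4 : (a : ℝ) / c - 1 ≤ ((a / c : ℕ) : ℝ) := by
      have h7 : a < c * (a / c + 1) := Nat.lt_mul_div_succ a hc
      have h8 : (a : ℝ) < c * (((a / c : ℕ) : ℝ) + 1) := by exact_mod_cast h7
      have h9 : (a : ℝ) / c < ((a / c : ℕ) : ℝ) + 1 := by rw [div_lt_iff₀ hcR]; linarith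
      linarith
    have s5 : ((a : ℝ) + h) / c = (a : ℝ) / c + (h : ℝ) / c := add_div _ _ _
    -- lower bound for `h/c`
    have s6 : (2 : ℝ) ^ (y * (i' : ℝ)) + 2 ≤ (h : ℝ) / c := by
      have t1 : (2 : ℝ) ^ ((1 / 2 - E.δ) * (i : ℝ) - 1) ≤ (h : ℝ) := hh_ge (δ := E.δ) i
      have hδ := E_half E
      have hδ0 := E.hδ
      have t2 : (c : ℝ) * (2 : ℝ) ^ ((i' : ℝ) - 1) ≤ (2 : ℝ) ^ (i : ℝ) := by
        have : ((c * 2 ^ i' : ℕ) : ℝ) ≤ ((2 ^ (i + 1) : ℕ) : ℝ) := by exact_mod_cast hA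
        rw [Nat.cast_mul, r2n, r2n] at this
        push_cast at this
        rw [Real.rpow_sub_one two_ne_zero]
        rw [Real.rpow_add_one two_ne_zero] at this
        linarith
      have t3 : ((c : ℝ) * (2 : ℝ) ^ ((i' : ℝ) - 1)) ^ (1 / 2 - E.δ) ≤ ((2 : ℝ) ^ (i : ℝ)) ^ (1 / 2 - E.δ) :=
        Real.rpow_le_rpow (mul_nonneg hcR.le (r2pos _).le) t2 (by linarith)
      rw [Real.mul_rpow hcR.le (r2pos _).le, ← Real.rpow_mul two_pos.le, ← Real.rpow_mul two_pos.le] at t3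
      have t4 : (2 : ℝ) ^ (-(x * (i' : ℝ) * (1 / 2 + E.δ))) ≤ (c : ℝ) ^ (-(1 / 2 + E.δ)) := by
        have := Real.rpow_le_rpow_of_nonpos hcR hcx.le (show -(1 / 2 + E.δ) ≤ 0 by linarith)
        rw [← Real.rpow_mul two_pos.le] at this
        refine le_trans (le_of_eq ?_) this
        congr 1; ring
      have t5 : (c : ℝ) ^ (1 / 2 - E.δ) / c = (c : ℝ) ^ (-(1 / 2 + E.δ)) := by
        rw [div_eq_mul_inv, ← Real.rpow_neg_one, ← Real.rpow_add hcR]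
        congr 1; ring
      have t6 : (2 : ℝ) ^ ((1 / 2 - E.δ) * (i : ℝ) - 1) = (2 : ℝ) ^ ((i : ℝ) * (1 / 2 - E.δ)) / 2 := by
        rw [Real.rpow_sub_one two_ne_zero, mul_comm]
      have t7 : (2 : ℝ) ^ (y * (i' : ℝ)) + 2 ≤ (2 : ℝ) ^ (y * (i' : ℝ) + 2) := by
        have e1 : (2 : ℝ) ^ (y * (i' : ℝ) + 2) = (2 : ℝ) ^ (y * (i' : ℝ)) * 4 := by
          rw [r2, show (2 : ℝ) ^ (2 : ℝ) = 4 by
            rw [show (2 : ℝ) ^ (2 : ℝ) = (2 : ℝ) ^ ((2 : ℕ) : ℝ) by norm_num, Real.rpow_natCast]; norm_num]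
        have e2 : (1 : ℝ) ≤ (2 : ℝ) ^ (y * (i' : ℝ)) := Real.one_le_rpow one_le_two (mul_nonneg hy0 hiR.le)
        rw [e1]; linarith
      calc (2 : ℝ) ^ (y * (i' : ℝ)) + 2 ≤ (2 : ℝ) ^ (y * (i' : ℝ) + 2) := t7
        _ ≤ (2 : ℝ) ^ ((1 / 2 - E.δ) * ((i' : ℝ) - 1) - 1 - x * (i' : ℝ) * (1 / 2 + E.δ)) := r2mono hnum
        _ = (2 : ℝ) ^ (-(x * (i' : ℝ) * (1 / 2 + E.δ))) * (2 : ℝ) ^ (((i' : ℝ) - 1) * (1 / 2 - E.δ)) / 2 := by
            rw [← r2, ← Real.rpow_sub_one two_ne_zero]; congr 1; ring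
        _ ≤ (c : ℝ) ^ (-(1 / 2 + E.δ)) * (2 : ℝ) ^ (((i' : ℝ) - 1) * (1 / 2 - E.δ)) / 2 := by
            have := r2pos (((i' : ℝ) - 1) * (1 / 2 - E.δ))
            gcongr
        _ = ((c : ℝ) ^ (1 / 2 - E.δ) * (2 : ℝ) ^ (((i' : ℝ) - 1) * (1 / 2 - E.δ))) / 2 / c := by
            rw [← t5]; ring
        _ ≤ (2 : ℝ) ^ ((i : ℝ) * (1 / 2 - E.δ)) / 2 / c := by gcongr
        _ = (2 : ℝ) ^ ((1 / 2 - E.δ) * (i : ℝ) - 1) / c := by rw [t6]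
        _ ≤ (h : ℝ) / c := by gcongr
    linarith
  gcongr

theorem weight_le (E : KEnv) {i i' c : ℕ} (hi : 1 ≤ i) (hi' : 1 ≤ i') (hc : 1 ≤ c) (hii : i ≤ 2 * i')
    (h2 : 2 ^ i ≤ c * 2 ^ (i' + 1)) :
    ww E.δ i' * ((hh E.δ i : ℝ) / c) / hh E.δ i' ≤ 4 * 2 ^ 40 * (ww E.δ i * (c : ℝ) ^ (-(E.δ / 2))) := by
  have hcR : (0 : ℝ) < c := by exact_mod_cast hc
  have hiR : (0 : ℝ) < i := by exact_mod_cast hi
  have hiR' : (0 : ℝ) < i' := by exact_mod_cast hi'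
  have hδ := E_half E
  have hδ0 := E.hδ
  have a1 := hh_le E.hδ hδ i
  have a2 := hh_ge (δ := E.δ) i'
  have a3 := r2pos ((1 / 2 - E.δ) * (i' : ℝ) - 1)
  have a4 := ww_nn E.δ i'
  have b1 : ww E.δ i' * ((hh E.δ i : ℝ) / c) / hh E.δ i' ≤
      ww E.δ i' * ((2 : ℝ) ^ ((1 / 2 - E.δ) * (i : ℝ)) / c) / (2 : ℝ) ^ ((1 / 2 - E.δ) * (i' : ℝ) - 1) := by
    gcongr
  refine b1.trans ?_
  have b2 : ww E.δ i' * ((2 : ℝ) ^ ((1 / 2 - E.δ) * (i : ℝ)) / c) / (2 : ℝ) ^ ((1 / 2 - E.δ) * (i' : ℝ) - 1) =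
      2 * (2 : ℝ) ^ (-(1 / 2 + E.δ / 2) * (i : ℝ)) * ((2 : ℝ) ^ (((i : ℝ) - i') * (1 - E.δ / 2)) / c) / (i' : ℝ) ^ 40 := by
    unfold ww
    have e1 : (2 : ℝ) ^ (-(1 / 2 + E.δ / 2) * (i' : ℝ)) * (2 : ℝ) ^ ((1 / 2 - E.δ) * (i : ℝ)) =
        ((2 : ℝ) ^ (-(1 / 2 + E.δ / 2) * (i : ℝ)) * (2 : ℝ) ^ (((i : ℝ) - i') * (1 - E.δ / 2))) *
          ((2 : ℝ) ^ ((1 / 2 - E.δ) * (i' : ℝ) - 1) * 2) := by
      have : (2 : ℝ) ^ ((1 / 2 - E.δ) * (i' : ℝ) - 1) * 2 = (2 : ℝ) ^ ((1 / 2 - E.δ) * (i' : ℝ)) := by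
        rw [Real.rpow_sub_one two_ne_zero]; ring
      rw [this, ← r2, ← r2, ← r2]; congr 1; ring
    have e2 : (2 : ℝ) ^ (-(1 / 2 + E.δ / 2) * (i' : ℝ)) / (i' : ℝ) ^ 40 * ((2 : ℝ) ^ ((1 / 2 - E.δ) * (i : ℝ)) / c) =
        ((2 : ℝ) ^ (-(1 / 2 + E.δ / 2) * (i' : ℝ)) * (2 : ℝ) ^ ((1 / 2 - E.δ) * (i : ℝ))) / ((i' : ℝ) ^ 40 * c) := by
      field_simp
    rw [e2, e1]
    field_simp
  rw [b2]
  have b3 : (2 : ℝ) ^ (((i : ℝ) - i') * (1 - E.δ / 2)) / c ≤ 2 * (c : ℝ) ^ (-(E.δ / 2)) := by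
    have e1 : (2 : ℝ) ^ ((i : ℝ) - i' - 1) ≤ c := by
      have : ((2 ^ i : ℕ) : ℝ) ≤ ((c * 2 ^ (i' + 1) : ℕ) : ℝ) := by exact_mod_cast h2
      rw [Nat.cast_mul, r2n, r2n] at this
      push_cast at this
      have e2 : (2 : ℝ) ^ ((i : ℝ) - i' - 1) = (2 : ℝ) ^ (i : ℝ) / (2 : ℝ) ^ ((i' : ℝ) + 1) := by
        rw [← Real.rpow_sub two_pos]; congr 1; ring
      rw [e2, div_le_iff₀ (r2pos _)]
      exact this
    have e3 : ((2 : ℝ) ^ ((i : ℝ) - i' - 1)) ^ (1 - E.δ / 2) ≤ (c : ℝ) ^ (1 - E.δ / 2) :=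
      Real.rpow_le_rpow (r2pos _).le e1 (by linarith)
    rw [← Real.rpow_mul two_pos.le] at e3
    have e4 : (2 : ℝ) ^ (((i : ℝ) - i') * (1 - E.δ / 2)) =
        (2 : ℝ) ^ (((i : ℝ) - i' - 1) * (1 - E.δ / 2)) * (2 : ℝ) ^ (1 - E.δ / 2) := by
      rw [← r2]; congr 1; ring
    have e5 : (2 : ℝ) ^ (1 - E.δ / 2) ≤ 2 := by
      have := r2mono (x := 1 - E.δ / 2) (y := 1) (by linarith)
      rwa [Real.rpow_one] at this
    have e6 : (c : ℝ) ^ (-(E.δ / 2)) = (c : ℝ) ^ (1 - E.δ / 2) / c := by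
      rw [eq_div_iff hcR.ne', ← Real.rpow_add_one hcR.ne']; congr 1; ring
    have e7 := r2pos (1 - E.δ / 2)
    have e8 := r2pos (((i : ℝ) - i' - 1) * (1 - E.δ / 2))
    rw [e6, e4, ← mul_div_assoc]
    apply div_le_div_of_nonneg_right _ hcR.le
    calc (2 : ℝ) ^ (((i : ℝ) - i' - 1) * (1 - E.δ / 2)) * (2 : ℝ) ^ (1 - E.δ / 2) ≤
          (c : ℝ) ^ (1 - E.δ / 2) * 2 := by gcongr
      _ = _ := mul_comm _ _
  have b4 : 1 / (i' : ℝ) ^ 40 ≤ 2 ^ 40 / (i : ℝ) ^ 40 := by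
    rw [div_le_div_iff₀ (by positivity) (by positivity), one_mul, ← mul_pow]
    have : (i : ℝ) ≤ 2 * i' := by exact_mod_cast hii
    gcongr
  have b5 := r2pos (-(1 / 2 + E.δ / 2) * (i : ℝ))
  calc 2 * (2 : ℝ) ^ (-(1 / 2 + E.δ / 2) * (i : ℝ)) * ((2 : ℝ) ^ (((i : ℝ) - i') * (1 - E.δ / 2)) / c) / (i' : ℝ) ^ 40
      = 2 * (2 : ℝ) ^ (-(1 / 2 + E.δ / 2) * (i : ℝ)) * ((2 : ℝ) ^ (((i : ℝ) - i') * (1 - E.δ / 2)) / c) * (1 / (i' : ℝ) ^ 40) := by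
        ring
    _ ≤ 2 * (2 : ℝ) ^ (-(1 / 2 + E.δ / 2) * (i : ℝ)) * (2 * (c : ℝ) ^ (-(E.δ / 2))) * (2 ^ 40 / (i : ℝ) ^ 40) := by
        gcongr
    _ = _ := by unfold ww; ring

/-- rearrangement -/
theorem fam_sum (E : KEnv) (V : ℕ → Bool) {j i k i' : ℕ} (F : Finset (ℕ × ℕ)) (g : ℕ × ℕ → ℝ) {x C : ℝ} (hC : 0 ≤ C)
    (hk : k < nc E.δ i)
    (h1 : ∀ u ∈ F, 0 < u.1 ∧ u.2.Prime ∧ ¬ u.2 ∣ u.1 ∧ (2 : ℝ) ^ (x * (i' : ℝ)) ≤ u.2)
    (h2 : ∀ u ∈ F, g u ≤ (if Vn V u.1 then C * E.TT i' u.1 else 0))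
    (h3 : ∀ u ∈ F, Vn V u.1 → E.AA V j u.1 ≤ 2 * (u.1 : ℝ) ^ (-(1 / 2 : ℝ) - dd)) :
    ∑ n ∈ cell E.δ i k, ∑ u ∈ F.filter (fun u => u.1 * u.2 ∣ n ∧ u.1 * u.2 ≠ n ∧
        ((n / u.2 / u.1 : ℕ) : ℝ) < (2 : ℝ) ^ (x * (i' : ℝ))),
        (n.factorization u.2 : ℝ) * (g u * E.AA V j (n / u.2)) ≤
      ∑ c ∈ (Icc 2 (2 ^ (i + 1))).filter (fun c : ℕ => (c : ℝ) < (2 : ℝ) ^ (x * (i' : ℝ))),
        2 * C * (ww E.δ i' * i' / hh E.δ i') * E.AA V j c *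
          ∑ u ∈ F.filter (fun u => Vn V u.1 ∧ c * (u.1 * u.2) ∈ cell E.δ i k), (u.1 : ℝ) ^ (1 / 2 - d1) := by
  set W : ℝ := 2 * C * (ww E.δ i' * i' / hh E.δ i') with hW
  have hW0 : 0 ≤ W := by
    have := ww_nn E.δ i'
    positivity
  set Q : Finset ℕ := cell E.δ i k with hQ
  set S : Finset (ℕ × (ℕ × ℕ)) := (Q ×ˢ F).filter (fun y => Vn V y.2.1 ∧ y.2.1 * y.2.2 ∣ y.1 ∧ y.2.1 * y.2.2 ≠ y.1 ∧
    ((y.1 / y.2.2 / y.2.1 : ℕ) : ℝ) < (2 : ℝ) ^ (x * (i' : ℝ))) with hS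
  set T : Finset (ℕ × (ℕ × ℕ)) := (((Icc 2 (2 ^ (i + 1))).filter (fun c : ℕ => (c : ℝ) < (2 : ℝ) ^ (x * (i' : ℝ)))) ×ˢ F).filter
    (fun y => Vn V y.2.1 ∧ y.1 * (y.2.1 * y.2.2) ∈ Q) with hT
  have hterm : ∀ n ∈ Q, ∀ u ∈ F, u.1 * u.2 ∣ n → ((n / u.2 / u.1 : ℕ) : ℝ) < (2 : ℝ) ^ (x * (i' : ℝ)) →
      (n.factorization u.2 : ℝ) * (g u * E.AA V j (n / u.2)) ≤
        if Vn V u.1 then W * E.AA V j (n / u.2 / u.1) * (u.1 : ℝ) ^ (1 / 2 - d1) else 0 := by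
    intro n hn u hu hdvd hlt
    obtain ⟨m0, hp, hnd, hbig⟩ := h1 u hu
    obtain ⟨c, hc⟩ := hdvd
    have hn0 : 0 < n := by
      have := (cell_loc E.δ E.hδ i k _ hk hn).1
      have h5 : 0 < 2 ^ i := by positivity
      omega
    have hc0 : 0 < c := by
      rcases Nat.eq_zero_or_pos c with h | h
      · rw [h, mul_zero] at hc; omega
      · exact h
    have e1 : n / u.2 = u.1 * c := by
      rw [hc, show u.1 * u.2 * c = u.2 * (u.1 * c) by ring, Nat.mul_div_cancel_left _ hp.pos]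
    have e2 : n / u.2 / u.1 = c := by rw [e1, Nat.mul_div_cancel_left _ m0]
    rw [e2] at hlt ⊢
    rw [e1]
    have hfac : n.factorization u.2 = 1 := by
      have hcu : ¬ u.2 ∣ c := by
        intro hd
        have h6 := Nat.le_of_dvd hc0 hd
        have h7 : (u.2 : ℝ) ≤ c := by exact_mod_cast h6
        linarith
      rw [hc, Nat.factorization_mul (mul_pos m0 hp.pos).ne' hc0.ne', Nat.factorization_mul m0.ne' hp.pos.ne']
      simp only [Finsupp.add_apply]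
      rw [Nat.factorization_eq_zero_of_not_dvd hnd, Nat.factorization_eq_zero_of_not_dvd hcu, hp.factorization_self]
    rw [hfac, Nat.cast_one, one_mul, AA_mul E V j m0.ne' hc0.ne']
    have hAc := AA_nn E V j c
    have hAm := AA_nn E V j u.1
    have hg := h2 u hu
    split_ifs at hg ⊢ with hV
    · have hA := h3 u hu hV
      have hm0 : (0 : ℝ) < u.1 := by exact_mod_cast m0
      have hTT : 0 ≤ E.TT i' u.1 := by
        unfold KEnv.TT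
        have := ww_nn E.δ i'
        positivity
      have e3 : E.TT i' u.1 * (u.1 : ℝ) ^ (-(1 / 2 : ℝ) - dd) = (ww E.δ i' * i' / hh E.δ i') * (u.1 : ℝ) ^ (1 / 2 - d1) := by
        unfold KEnv.TT
        have e4 : (u.1 : ℝ) ^ (1 / 2 - d1) = (u.1 : ℝ) ^ (1 + dd - d1) * (u.1 : ℝ) ^ (-(1 / 2 : ℝ) - dd) := by
          rw [← Real.rpow_add hm0]; congr 1; ring
        rw [e4]; ring
      calc g u * (E.AA V j u.1 * E.AA V j c) ≤ (C * E.TT i' u.1) * ((2 * (u.1 : ℝ) ^ (-(1 / 2 : ℝ) - dd)) * E.AA V j c) := by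
            have h8 : E.AA V j u.1 * E.AA V j c ≤ (2 * (u.1 : ℝ) ^ (-(1 / 2 : ℝ) - dd)) * E.AA V j c := by gcongr
            have h9 : 0 ≤ E.AA V j u.1 * E.AA V j c := mul_nonneg hAm hAc
            exact mul_le_mul hg h8 h9 (mul_nonneg hC hTT)
        _ = 2 * C * (E.TT i' u.1 * (u.1 : ℝ) ^ (-(1 / 2 : ℝ) - dd)) * E.AA V j c := by ring
        _ = W * E.AA V j c * (u.1 : ℝ) ^ (1 / 2 - d1) := by rw [e3, hW]; ring
    · exact mul_nonpos_of_nonpos_of_nonneg hg (mul_nonneg hAm hAc)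
  calc ∑ n ∈ Q, ∑ u ∈ F.filter (fun u => u.1 * u.2 ∣ n ∧ u.1 * u.2 ≠ n ∧
        ((n / u.2 / u.1 : ℕ) : ℝ) < (2 : ℝ) ^ (x * (i' : ℝ))), (n.factorization u.2 : ℝ) * (g u * E.AA V j (n / u.2))
      ≤ ∑ n ∈ Q, ∑ u ∈ F.filter (fun u => u.1 * u.2 ∣ n ∧ u.1 * u.2 ≠ n ∧
        ((n / u.2 / u.1 : ℕ) : ℝ) < (2 : ℝ) ^ (x * (i' : ℝ))),
          (if Vn V u.1 then W * E.AA V j (n / u.2 / u.1) * (u.1 : ℝ) ^ (1 / 2 - d1) else 0) := by
        apply sum_le_sum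
        intro n hn
        apply sum_le_sum
        intro u hu
        obtain ⟨r1, r2, r3, r4⟩ := mem_filter.1 hu
        exact hterm n hn u r1 r2 r4
    _ = ∑ y ∈ S, W * E.AA V j (y.1 / y.2.2 / y.2.1) * (y.2.1 : ℝ) ^ (1 / 2 - d1) := by
        rw [hS, sum_filter, sum_product]
        apply sum_congr rfl
        intro n _
        rw [sum_filter]
        apply sum_congr rfl
        intro u _
        by_cases hV : Vn V u.1
        · simp only [hV, if_true, true_and]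
        · simp only [hV, if_false, false_and, ite_self]
    _ = ∑ y ∈ S.image (fun y => (y.1 / y.2.2 / y.2.1, y.2)), W * E.AA V j y.1 * (y.2.1 : ℝ) ^ (1 / 2 - d1) := by
        rw [sum_image]
        rintro ⟨n, u⟩ hy ⟨n', u'⟩ hy' he
        rw [mem_coe, hS, mem_filter, mem_product] at hy hy'
        obtain ⟨he1, he2⟩ := Prod.mk.inj he
        simp only at he1 he2
        subst he2
        obtain ⟨⟨hnQ, huF⟩, _, hd, _⟩ := hy
        obtain ⟨⟨hnQ', _⟩, _, hd', _⟩ := hy'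
        obtain ⟨m0, hp, _, _⟩ := h1 u huF
        simp only at hd hd' m0 hp
        have e1 : ∀ t : ℕ, u.1 * u.2 ∣ t → t = (t / u.2 / u.1) * (u.1 * u.2) := by
          intro t ht
          obtain ⟨c, rfl⟩ := ht
          rw [show u.1 * u.2 * c = u.2 * (u.1 * c) by ring, Nat.mul_div_cancel_left _ hp.pos,
            Nat.mul_div_cancel_left _ m0]
          ring
        have : n = n' := by rw [e1 n hd, e1 n' hd', he1]
        rw [this]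
    _ ≤ ∑ y ∈ T, W * E.AA V j y.1 * (y.2.1 : ℝ) ^ (1 / 2 - d1) := by
        apply sum_le_sum_of_subset_of_nonneg
        · intro y hy
          obtain ⟨⟨n, u⟩, hs, rfl⟩ := mem_image.1 hy
          rw [hS, mem_filter, mem_product] at hs
          obtain ⟨⟨hnQ, huF⟩, hV, hd, hne, hlt⟩ := hs
          simp only at hnQ huF hV hd hne hlt
          obtain ⟨m0, hp, _, _⟩ := h1 u huF
          obtain ⟨c, hc⟩ := hd
          have e2 : n / u.2 / u.1 = c := by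
            rw [hc, show u.1 * u.2 * c = u.2 * (u.1 * c) by ring, Nat.mul_div_cancel_left _ hp.pos,
              Nat.mul_div_cancel_left _ m0]
          have hloc := cell_loc E.δ E.hδ i k _ hk hnQ
          have h2i : 0 < 2 ^ i := by positivity
          rw [hT, mem_filter, mem_product, mem_filter, mem_Icc]
          simp only
          rw [e2] at hlt ⊢
          refine ⟨⟨⟨⟨?_, ?_⟩, hlt⟩, huF⟩, hV, ?_⟩
          · rcases c with _ | _ | c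
            · rw [mul_zero] at hc; omega
            · rw [zero_add, mul_one] at hc; exact absurd hc.symm hne
            · omega
          · have h5 : c ≤ n := by
              rw [hc]
              exact Nat.le_mul_of_pos_left c (mul_pos m0 hp.pos)
            omega
          · rw [mul_comm, ← hc]; exact hnQ
        · intro y _ _
          exact mul_nonneg (mul_nonneg hW0 (AA_nn E V j _)) (Real.rpow_nonneg (Nat.cast_nonneg _) _)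
    _ = _ := by
        rw [hT, sum_filter, sum_product]
        apply sum_congr rfl
        intro c _
        rw [mul_sum, sum_filter]

/-- at most three scales for one cofactor -/
theorem card_scales (i c : ℕ) (hc : c ≠ 0) (S : Finset ℕ) :
    (S.filter (fun i' => c * 2 ^ i' ≤ 2 ^ (i + 1) ∧ 2 ^ i ≤ c * 2 ^ (i' + 1))).card ≤ 3 := by
  set L := Nat.log 2 c with hL
  have h1 : 2 ^ L ≤ c := Nat.pow_log_le_self 2 hc
  have h2 : c < 2 ^ (L + 1) := Nat.lt_pow_succ_log_self (by norm_num) c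
  have h3 : S.filter (fun i' => c * 2 ^ i' ≤ 2 ^ (i + 1) ∧ 2 ^ i ≤ c * 2 ^ (i' + 1)) ⊆ Icc (i - (L + 1)) (i - (L + 1) + 2) := by
    intro i' hi'
    obtain ⟨_, h4, h5⟩ := mem_filter.1 hi'
    have h6 : 2 ^ (L + i') ≤ 2 ^ (i + 1) := by
      rw [pow_add]
      exact (Nat.mul_le_mul_right _ h1).trans h4
    have h7 : L + i' ≤ i + 1 := (Nat.pow_le_pow_iff_right (by norm_num)).1 h6
    have h8 : 2 ^ i < 2 ^ (L + 1 + (i' + 1)) := by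
      rw [pow_add 2 (L + 1)]
      refine h5.trans_lt ?_
      exact Nat.mul_lt_mul_of_pos_right h2 (by positivity)
    have h9 : i < L + 1 + (i' + 1) := (Nat.pow_lt_pow_iff_right (by norm_num)).1 h8
    rw [mem_Icc]
    omega
  calc _ ≤ (Icc (i - (L + 1)) (i - (L + 1) + 2)).card := card_le_card h3
    _ = 3 := by rw [Nat.card_Icc]; omega

theorem num1 (E : KEnv) {i' : ℕ} (hi' : 1000 ≤ i') : 0.34 * (i' : ℝ) + 2 ≤ (1 / 2 - E.δ) * ((i' : ℝ) - 1) - 1 - 0.31 * (i' : ℝ) * (1 / 2 + E.δ) := by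
  have h1 : (1000 : ℝ) ≤ i' := by exact_mod_cast hi'
  have h2 : E.δ ≤ 1 / 10 ^ 4 := E.hδ'.trans (by norm_num)
  have h3 := E.hδ
  nlinarith

theorem num2 (E : KEnv) {i' : ℕ} (hi' : 1000 ≤ i') : 0.43 * (i' : ℝ) + 2 ≤ (1 / 2 - E.δ) * ((i' : ℝ) - 1) - 1 - 0.12 * (i' : ℝ) * (1 / 2 + E.δ) := by
  have h1 : (1000 : ℝ) ≤ i' := by exact_mod_cast hi'
  have h2 : E.δ ≤ 1 / 10 ^ 4 := E.hδ'.trans (by norm_num)
  have h3 := E.hδ
  nlinarith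

/-- one family -/
theorem one_fam (E : KEnv) (V : ℕ → Bool) {j i k : ℕ} (hj : 1000 ≤ j) (hi : j ≤ i) (hk : k < nc E.δ i)
    (F : ℕ → Finset (ℕ × ℕ)) (g : ℕ → ℕ × ℕ → ℝ) {x y R C ε : ℝ} (hC : 0 ≤ C) (hR : 0 ≤ R) (hx : x ≤ 1 / 2)
    (hy0 : 0 ≤ y) (hy : y ≤ 1)
    (hnum : ∀ i' : ℕ, j ≤ i' → y * (i' : ℝ) + 2 ≤ (1 / 2 - E.δ) * ((i' : ℝ) - 1) - 1 - x * (i' : ℝ) * (1 / 2 + E.δ))
    (h1 : ∀ i' : ℕ, j ≤ i' → ∀ u ∈ F i', 0 < u.1 ∧ u.2.Prime ∧ ¬ u.2 ∣ u.1 ∧ (2 : ℝ) ^ (x * (i' : ℝ)) ≤ u.2 ∧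
      2 ^ i' < u.1 * u.2 ∧ u.1 * u.2 ≤ 2 ^ (i' + 1))
    (h2 : ∀ i' : ℕ, j ≤ i' → ∀ u ∈ F i', g i' u ≤ (if Vn V u.1 then C * E.TT i' u.1 else 0))
    (h3 : ∀ i' : ℕ, j ≤ i' → ∀ u ∈ F i', Vn V u.1 → E.AA V j u.1 ≤ 2 * (u.1 : ℝ) ^ (-(1 / 2 : ℝ) - dd))
    (h4 : ∀ i' : ℕ, j ≤ i' → ∀ a b : ℕ, 2 ^ i' ≤ a → b ≤ 2 ^ (i' + 1) → (2 : ℝ) ^ (y * (i' : ℝ)) ≤ (b : ℝ) - a →
      ∑ u ∈ (F i').filter (fun u => Vn V u.1 ∧ u.1 * u.2 ∈ Ioc a b), (u.1 : ℝ) ^ (1 / 2 - d1) ≤ R * ((b : ℝ) - a) / i')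
    (hDE : ∑ c ∈ Icc 2 (2 ^ (i + 1)), E.AA V j c * (c : ℝ) ^ (-(E.δ / 2)) ≤ ε) :
    ∑ i' ∈ (range (4 * i + 9)).filter (fun i' => j ≤ i'), ∑ n ∈ cell E.δ i k,
      ∑ u ∈ (F i').filter (fun u => u.1 * u.2 ∣ n ∧ u.1 * u.2 ≠ n ∧ ((n / u.2 / u.1 : ℕ) : ℝ) < (2 : ℝ) ^ (x * (i' : ℝ))),
        (n.factorization u.2 : ℝ) * (g i' u * E.AA V j (n / u.2)) ≤ (48 * 2 ^ 40 * C * R) * ε * ww E.δ i := by
  have hi1 : 1 ≤ i := by omega
  set K : ℝ := 16 * 2 ^ 40 * C * R with hK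
  have hK0 : 0 ≤ K := by positivity
  have hwi := ww_nn E.δ i
  set D : ℕ → ℝ := fun c => K * ww E.δ i * (E.AA V j c * (c : ℝ) ^ (-(E.δ / 2))) with hD
  have hD0 : ∀ c, 0 ≤ D c := fun c => mul_nonneg (mul_nonneg hK0 hwi)
    (mul_nonneg (AA_nn E V j c) (Real.rpow_nonneg (Nat.cast_nonneg c) _))
  have step : ∀ i' ∈ (range (4 * i + 9)).filter (fun i' => j ≤ i'), ∑ n ∈ cell E.δ i k,
      ∑ u ∈ (F i').filter (fun u => u.1 * u.2 ∣ n ∧ u.1 * u.2 ≠ n ∧ ((n / u.2 / u.1 : ℕ) : ℝ) < (2 : ℝ) ^ (x * (i' : ℝ))),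
        (n.factorization u.2 : ℝ) * (g i' u * E.AA V j (n / u.2)) ≤
      ∑ c ∈ Icc 2 (2 ^ (i + 1)), if c * 2 ^ i' ≤ 2 ^ (i + 1) ∧ 2 ^ i ≤ c * 2 ^ (i' + 1) then D c else 0 := by
    intro i' hi'
    have hji' : j ≤ i' := (mem_filter.1 hi').2
    have hi'1 : 1 ≤ i' := by omega
    have hi'R : (0 : ℝ) < i' := by exact_mod_cast hi'1
    refine (fam_sum E V (j := j) (x := x) (C := C) (F i') (g i') hC hk
      (fun u hu => ⟨(h1 i' hji' u hu).1, (h1 i' hji' u hu).2.1, (h1 i' hji' u hu).2.2.1, (h1 i' hji' u hu).2.2.2.1⟩)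
      (h2 i' hji') (h3 i' hji')).trans ?_
    rw [sum_filter]
    apply sum_le_sum
    intro c hc
    have hc2 : 2 ≤ c := (mem_Icc.1 hc).1
    have hc1 : 1 ≤ c := by omega
    have hcR : (0 : ℝ) < c := by exact_mod_cast hc1
    by_cases hcx : (c : ℝ) < (2 : ℝ) ^ (x * (i' : ℝ))
    · rw [if_pos hcx]
      have hreg := reg_cell E V (F i') (R := R) hk hc1 hcx hR hi'1 hy0 hy (hnum i' hji')
        (fun u hu => (h1 i' hji' u hu).2.2.2.2) (h4 i' hji')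
      have hW0 : 0 ≤ 2 * C * (ww E.δ i' * i' / hh E.δ i') * E.AA V j c := by
        have := ww_nn E.δ i'
        have := AA_nn E V j c
        positivity
      refine (mul_le_mul_of_nonneg_left hreg hW0).trans ?_
      by_cases hcond : c * 2 ^ i' ≤ 2 ^ (i + 1) ∧ 2 ^ i ≤ c * 2 ^ (i' + 1)
      · rw [if_pos hcond, if_pos hcond]
        have hii : i ≤ 2 * i' := by
          have e1 : ((2 ^ i : ℕ) : ℝ) ≤ ((c * 2 ^ (i' + 1) : ℕ) : ℝ) := by exact_mod_cast hcond.2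
          rw [Nat.cast_mul, r2n, r2n] at e1
          have e2 : (2 : ℝ) ^ (i : ℝ) < (2 : ℝ) ^ (x * (i' : ℝ) + ((i' + 1 : ℕ) : ℝ)) := by
            rw [r2]
            refine e1.trans_lt ?_
            exact mul_lt_mul_of_pos_right hcx (r2pos _)
          have e3 := (Real.rpow_lt_rpow_left_iff (one_lt_two)).1 e2
          push_cast at e3
          have e4 : (1000 : ℝ) ≤ i' := by
            have : 1000 ≤ i' := by omega
            exact_mod_cast this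
          have e5 : (i : ℝ) < 2 * i' := by nlinarith
          have e6 : i < 2 * i' := by exact_mod_cast e5
          exact e6.le
        have hw := weight_le E hi1 hi'1 hc1 hii hcond.2
        have hhp : (0 : ℝ) < hh E.δ i' := by exact_mod_cast hh_pos E.δ i'
        have e7 : 2 * C * (ww E.δ i' * i' / hh E.δ i') * E.AA V j c * (R * (2 * ((hh E.δ i : ℝ) / c)) / i') =
            4 * C * R * E.AA V j c * (ww E.δ i' * ((hh E.δ i : ℝ) / c) / hh E.δ i') := by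
          field_simp; ring
        rw [e7]
        have hAc := AA_nn E V j c
        calc 4 * C * R * E.AA V j c * (ww E.δ i' * ((hh E.δ i : ℝ) / c) / hh E.δ i') ≤
              4 * C * R * E.AA V j c * (4 * 2 ^ 40 * (ww E.δ i * (c : ℝ) ^ (-(E.δ / 2)))) := by
              apply mul_le_mul_of_nonneg_left hw
              positivity
          _ = D c := by rw [hD, hK]; ring
      · rw [if_neg hcond, if_neg hcond, mul_zero]
    · rw [if_neg hcx]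
      split_ifs
      · exact hD0 c
      · exact le_rfl
  refine (sum_le_sum step).trans ?_
  rw [sum_comm]
  calc ∑ c ∈ Icc 2 (2 ^ (i + 1)), ∑ i' ∈ (range (4 * i + 9)).filter (fun i' => j ≤ i'),
        (if c * 2 ^ i' ≤ 2 ^ (i + 1) ∧ 2 ^ i ≤ c * 2 ^ (i' + 1) then D c else 0)
      ≤ ∑ c ∈ Icc 2 (2 ^ (i + 1)), 3 * D c := by
        apply sum_le_sum
        intro c hc
        have hc2 : 2 ≤ c := (mem_Icc.1 hc).1
        rw [← sum_filter, sum_const, nsmul_eq_mul]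
        have := card_scales i c (by omega) ((range (4 * i + 9)).filter (fun i' => j ≤ i'))
        have h5 : ((((range (4 * i + 9)).filter (fun i' => j ≤ i')).filter
          (fun i' => c * 2 ^ i' ≤ 2 ^ (i + 1) ∧ 2 ^ i ≤ c * 2 ^ (i' + 1))).card : ℝ) ≤ 3 := by exact_mod_cast this
        exact mul_le_mul_of_nonneg_right h5 (hD0 c)
    _ = 3 * K * ww E.δ i * ∑ c ∈ Icc 2 (2 ^ (i + 1)), E.AA V j c * (c : ℝ) ^ (-(E.δ / 2)) := by
        rw [mul_sum]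
        apply sum_congr rfl
        intro c _
        rw [hD]; ring
    _ ≤ 3 * K * ww E.δ i * ε := by
        apply mul_le_mul_of_nonneg_left hDE
        positivity
    _ = _ := by rw [hK]; ring

theorem t_HPb (hDT : S_DT) (hDA : S_DA) (hDE : S_DE) (hFF : S_FF) : S_HPb := by
  intro E ε hε
  obtain ⟨C, hC, hDT⟩ := hDT E
  obtain ⟨η₁, J₁, hη₁, hDA⟩ := hDA E
  have hCB := E.hCB
  set R : ℝ := 20 * E.CB with hR
  have hR0 : 0 < R := by rw [hR]; linarith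
  set K : ℝ := 48 * 2 ^ 40 * C * R with hK
  have hK0 : 0 < K := by positivity
  obtain ⟨η₂, J₂, hη₂, hDE⟩ := hDE E (ε / (2 * K)) (by positivity)
  refine ⟨min η₁ η₂, max (max E.i₁ 1000) (max J₁ J₂), lt_min hη₁ hη₂, fun η j V hη hηm hj hE i k hi hk => ?_⟩
  have hj1 : E.i₁ ≤ j := ((le_max_left _ _).trans (le_max_left _ _)).trans hj
  have hj2 : 1000 ≤ j := ((le_max_right _ _).trans (le_max_left _ _)).trans hj
  have hj3 : J₁ ≤ j := ((le_max_left _ _).trans (le_max_right _ _)).trans hj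
  have hj4 : J₂ ≤ j := ((le_max_right _ _).trans (le_max_right _ _)).trans hj
  have hA := hDA η j V hη (hηm.trans (min_le_left _ _)) hj3 hE
  have hB := (hDE η j V hη (hηm.trans (min_le_right _ _)) hj4 hE).1 (2 ^ (i + 1))
  have hD := hDT j hj1 V (fun p h => (hE.sub p h).1) hE.o1 hE.o2
  have hA' : ∀ i' : ℕ, j ≤ i' → ∀ u ∈ E.Fam i', Vn V u.1 → E.AA V j u.1 ≤ 2 * (u.1 : ℝ) ^ (-(1 / 2 : ℝ) - dd) := by
    intro i' hi' u hu hV
    refine (hA i' hi' u hu hV).trans ?_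
    apply mul_le_mul_of_nonneg_right _ (Real.rpow_nonneg (Nat.cast_nonneg _) _)
    have h5 : (2 : ℝ) ^ (-((i' : ℝ) / 100)) ≤ 1 := by
      apply Real.rpow_le_one_of_one_le_of_nonpos one_le_two
      have : (0 : ℝ) ≤ i' := Nat.cast_nonneg _
      linarith
    linarith
  have f1 := one_fam E V hj2 hi hk (fun i' => E.Fam1 i') (fun i' => E.g1 V i') (x := 0.31) (y := 0.34) (R := R) (C := C)
    (ε := ε / (2 * K)) (by linarith) hR0.le (by norm_num) (by norm_num) (by norm_num)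
    (fun i' hi' => num1 E (hj2.trans hi'))
    (fun i' hi' u hu => by
      obtain ⟨a1, a2, _, a4, a5, a6, a7, _⟩ := (hFF E i' (hj1.trans hi')).1 u hu
      refine ⟨a1.pos, a2, ?_, ?_, a6, a7⟩
      · intro hd
        have := Nat.le_of_dvd a1.pos hd
        omega
      · refine le_trans (r2mono ?_) a5
        have : (0 : ℝ) ≤ i' := Nat.cast_nonneg _
        nlinarith)
    (fun i' hi' u _ => ((hD i' hi').2.2.1 u).2.1)
    (fun i' hi' u hu hV => hA' i' hi' u (mem_union_left _ hu) hV)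
    (fun i' hi' a b h1 h2 h3 => hE.g1 i' a b hi' h1 h2 h3) hB
  have f2 := one_fam E V hj2 hi hk (fun i' => E.Fam2 i') (fun i' => E.g2 V i') (x := 0.12) (y := 0.43) (R := R) (C := C)
    (ε := ε / (2 * K)) (by linarith) hR0.le (by norm_num) (by norm_num) (by norm_num)
    (fun i' hi' => num2 E (hj2.trans hi'))
    (fun i' hi' u hu => by
      obtain ⟨_, a2, a3, a4, _, _, _, a5, a6, a7, _⟩ := (hFF E i' (hj1.trans hi')).2 u hu
      refine ⟨by omega, a3, a4, ?_, a6, a7⟩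
      refine le_trans (r2mono ?_) a5
      have : (0 : ℝ) ≤ i' := Nat.cast_nonneg _
      nlinarith)
    (fun i' hi' u _ => ((hD i' hi').2.2.1 u).2.2.2)
    (fun i' hi' u hu hV => hA' i' hi' u (mem_union_right _ hu) hV)
    (fun i' hi' a b h1 h2 h3 => hE.g2 i' a b hi' h1 h2 h3) hB
  have hsplit : ∑ i' ∈ (range (4 * i + 9)).filter (fun i' => j ≤ i'), ∑ n ∈ cell E.δ i k,
    (∑ u ∈ (E.Fam1 i').filter (fun u => u.1 * u.2 ∣ n ∧ u.1 * u.2 ≠ n ∧ ((n / u.2 / u.1 : ℕ) : ℝ) < (2 : ℝ) ^ (0.31 * (i' : ℝ))),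
        (n.factorization u.2 : ℝ) * (E.g1 V i' u * E.AA V j (n / u.2)) +
      ∑ u ∈ (E.Fam2 i').filter (fun u => u.1 * u.2 ∣ n ∧ u.1 * u.2 ≠ n ∧ ((n / u.2 / u.1 : ℕ) : ℝ) < (2 : ℝ) ^ (0.12 * (i' : ℝ))),
        (n.factorization u.2 : ℝ) * (E.g2 V i' u * E.AA V j (n / u.2))) =
    ∑ i' ∈ (range (4 * i + 9)).filter (fun i' => j ≤ i'), ∑ n ∈ cell E.δ i k,
      ∑ u ∈ (E.Fam1 i').filter (fun u => u.1 * u.2 ∣ n ∧ u.1 * u.2 ≠ n ∧ ((n / u.2 / u.1 : ℕ) : ℝ) < (2 : ℝ) ^ (0.31 * (i' : ℝ))),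
        (n.factorization u.2 : ℝ) * (E.g1 V i' u * E.AA V j (n / u.2)) +
    ∑ i' ∈ (range (4 * i + 9)).filter (fun i' => j ≤ i'), ∑ n ∈ cell E.δ i k,
      ∑ u ∈ (E.Fam2 i').filter (fun u => u.1 * u.2 ∣ n ∧ u.1 * u.2 ≠ n ∧ ((n / u.2 / u.1 : ℕ) : ℝ) < (2 : ℝ) ^ (0.12 * (i' : ℝ))),
        (n.factorization u.2 : ℝ) * (E.g2 V i' u * E.AA V j (n / u.2)) := by
    rw [← sum_add_distrib]
    apply sum_congr rfl
    intro i' _
    rw [← sum_add_distrib]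
  rw [hsplit]
  refine (add_le_add f1 f2).trans (le_of_eq ?_)
  rw [← hK]
  field_simp
  ring

end Pool.Agent.Q238.KZ
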